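import Pool.Agent.helper75.AU.SpecR

namespace Pool.Agent.helper75.AU

open scoped Classical
open Pool.Agent.helper53.AU

/-- Bezout in a subgroup. -/
theorem FH_bez {G : Type} [Group G] (H : Subgroup G) (g : G) (a b : ℕ) (hab : Nat.Coprime a b)
    (ha : g ^ a ∈ H) (hb : g ^ b ∈ H) : g ∈ H := by
  have h1 : (1 : ℤ) = a * Nat.gcdA a b + b * Nat.gcdB a b := by
    have := Nat.gcd_eq_gcd_ab a b
    rw [hab] at this
    exact_mod_cast this
  have h2 : g = (g ^ a) ^ (Nat.gcdA a b) * (g ^ b) ^ (Nat.gcdB a b) := by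
    rw [← zpow_natCast g a, ← zpow_natCast g b, ← zpow_mul, ← zpow_mul, ← zpow_add, ← h1, zpow_one]
  rw [h2]
  exact H.mul_mem (H.zpow_mem ha _) (H.zpow_mem hb _)

theorem FH_main : ∀ (n : ℕ) (G : Type) [Group G] [Finite G] (g h : G), orderOf g = n → orderOf h = n →
    Nat.Coprime n (Nat.card G / n) → ∃ x : G, x * g * x⁻¹ ∈ Subgroup.zpowers h := by
  intro n
  induction n using Nat.strong_induction_on with
  | _ n ih =>
    intro G _ _ g h hg hh hcop
    by_cases hn1 : n = 1
    · subst hn1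
      rw [orderOf_eq_one_iff] at hg
      exact ⟨1, by rw [hg]; simp⟩
    have hnpos : 0 < n := by rw [← hg]; exact orderOf_pos g
    have hn0 : n ≠ 0 := hnpos.ne'
    set p := n.minFac with hp
    have hpp : p.Prime := Nat.minFac_prime hn1
    have : Fact p.Prime := ⟨hpp⟩
    have hpn : p ∣ n := Nat.minFac_dvd n
    set k := n.factorization p with hk
    set m := n / p ^ k with hm
    have hnm : p ^ k * m = n := Nat.ordProj_mul_ordCompl_eq_self n p
    have hpm : Nat.Coprime (p ^ k) m := (Nat.coprime_ordCompl hpp hn0).pow_left k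
    have hk1 : k ≠ 0 := by
      intro h0
      rw [h0] at hk
      have := (hpp.dvd_iff_one_le_factorization hn0).1 hpn
      omega
    have hmpos : 0 < m := by
      rcases Nat.eq_zero_or_pos m with h0 | h0
      · rw [h0] at hnm; omega
      · exact h0
    have hppos : 0 < p ^ k := pow_pos hpp.pos k
    have hmn : m < n := by
      have h1 : 1 < p ^ k := Nat.one_lt_pow hk1 hpp.one_lt
      calc m = 1 * m := (one_mul m).symm
        _ < p ^ k * m := by exact Nat.mul_lt_mul_of_pos_right h1 hmpos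
        _ = n := hnm
    have hdvd : n ∣ Nat.card G := by rw [← hg]; exact orderOf_dvd_natCard g
    have hcard : n * (Nat.card G / n) = Nat.card G := Nat.mul_div_cancel' hdvd
    have hG0 : Nat.card G ≠ 0 := Nat.card_pos.ne'
    have hq0 : Nat.card G / n ≠ 0 := by
      intro h0
      rw [h0, mul_zero] at hcard
      exact hG0 hcard.symm
    have hfac : (Nat.card G).factorization p = k := by
      rw [← hcard, Nat.factorization_mul hn0 hq0, Finsupp.add_apply, ← hk]
      have : (Nat.card G / n).factorization p = 0 := by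
        apply Nat.factorization_eq_zero_of_not_dvd
        intro hd
        have := Nat.dvd_gcd hpn hd
        rw [hcop] at this
        exact hpp.one_lt.ne' (Nat.dvd_one.1 this)
      omega
    have hord : ∀ u : G, orderOf u = n → orderOf (u ^ m) = p ^ k := by
      intro u hu
      rw [orderOf_pow, hu, Nat.gcd_eq_right (Dvd.intro_left _ hnm)]
      exact Nat.div_eq_of_eq_mul_left hmpos hnm.symm
    have hord' : ∀ u : G, orderOf u = n → orderOf (u ^ (p ^ k)) = m := by
      intro u hu
      rw [orderOf_pow, hu, Nat.gcd_eq_right (Dvd.intro _ hnm)]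
    let P : Sylow p G := Sylow.ofCard (Subgroup.zpowers (g ^ m))
      (by rw [Nat.card_zpowers, hord g hg, hfac])
    let Q : Sylow p G := Sylow.ofCard (Subgroup.zpowers (h ^ m))
      (by rw [Nat.card_zpowers, hord h hh, hfac])
    obtain ⟨x, hx⟩ := MulAction.exists_smul_eq G P Q
    set g' := x * g * x⁻¹ with hg'
    have hg'n : orderOf g' = n := by
      rw [← hg]
      have : g' = MulAut.conj x g := rfl
      rw [this]
      exact MulEquiv.orderOf_eq (MulAut.conj x) g
    have hmem : g' ^ m ∈ Subgroup.zpowers (h ^ m) := by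
      have h1 : (x • P : Sylow p G) = Q := hx
      have h2 : ((x • P : Sylow p G) : Subgroup G) = (Q : Subgroup G) := by rw [h1]
      have h3 : (Q : Subgroup G) = Subgroup.zpowers (h ^ m) := rfl
      rw [← h3, ← h2, Sylow.coe_subgroup_smul]
      have h4 : g' ^ m = MulAut.conj x • (g ^ m) := by
        rw [hg', MulAut.smul_def, MulAut.conj_apply, conj_pow]
      rw [h4]
      exact Subgroup.smul_mem_pointwise_smul _ _ _ (Subgroup.mem_zpowers (g ^ m))
    have hzeq : Subgroup.zpowers (g' ^ m) = Subgroup.zpowers (h ^ m) := by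
      apply Subgroup.eq_of_le_of_card_ge
      · rw [Subgroup.zpowers_le]; exact hmem
      · rw [Nat.card_zpowers, Nat.card_zpowers, hord h hh, hord g' hg'n]
    set C : Subgroup G := Subgroup.centralizer {h ^ m} with hC
    have hmemC : ∀ u : G, u ∈ C ↔ u * h ^ m = h ^ m * u := by
      intro u
      rw [hC, Subgroup.mem_centralizer_iff]
      constructor
      · intro h1
        exact (h1 _ rfl).symm
      · intro h1 v hv
        rw [Set.mem_singleton_iff] at hv
        rw [hv]; exact h1.symm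
    have hhC : h ∈ C := by
      rw [hmemC]
      exact (Commute.refl h).pow_right m
    have hgC : g' ∈ C := by
      rw [hmemC]
      have h1 : h ^ m ∈ Subgroup.zpowers (g' ^ m) := by rw [hzeq]; exact Subgroup.mem_zpowers _
      obtain ⟨j, hj⟩ := Subgroup.mem_zpowers_iff.1 h1
      rw [← hj]
      exact ((Commute.refl g').pow_right m).zpow_right j
    let h₂ : C := ⟨h, hhC⟩
    let g₂ : C := ⟨g', hgC⟩
    have ho1 : orderOf (h₂ ^ (p ^ k)) = m := by
      rw [← Subgroup.orderOf_coe]
      exact hord' h hh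
    have ho2 : orderOf (g₂ ^ (p ^ k)) = m := by
      rw [← Subgroup.orderOf_coe]
      exact hord' g' hg'n
    have hnC : n ∣ Nat.card C := by
      have h1 : orderOf h₂ = n := by
        rw [← Subgroup.orderOf_coe]; exact hh
      rw [← h1]
      exact orderOf_dvd_natCard h₂
    obtain ⟨c, hc⟩ := hnC
    have hcG : c ∣ Nat.card G / n := by
      obtain ⟨d, hd⟩ := Subgroup.card_subgroup_dvd_card C
      rw [hc] at hd
      refine ⟨d, ?_⟩
      rw [hd, mul_assoc, Nat.mul_div_cancel_left _ hnpos]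
    have hcopc : Nat.Coprime n c := Nat.Coprime.coprime_dvd_right hcG hcop
    have hcopm : Nat.Coprime m (Nat.card C / m) := by
      have h1 : Nat.card C / m = p ^ k * c := by
        rw [hc, ← hnm, mul_assoc, mul_comm m c, ← mul_assoc]
        exact Nat.mul_div_cancel _ hmpos
      rw [h1]
      exact Nat.Coprime.mul_right hpm.symm (Nat.Coprime.coprime_dvd_left (Dvd.intro_left _ hnm) hcopc)
    obtain ⟨y, hy⟩ := ih m hmn C (g₂ ^ (p ^ k)) (h₂ ^ (p ^ k)) ho2 ho1 hcopm
    refine ⟨(y : G) * x, ?_⟩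
    have e0 : (y : G) * x * g * ((y : G) * x)⁻¹ = (y : G) * g' * (y : G)⁻¹ := by
      rw [hg']; group
    rw [e0]
    apply FH_bez _ _ (p ^ k) m hpm
    · obtain ⟨j, hj⟩ := Subgroup.mem_zpowers_iff.1 hy
      have h1 : ((h ^ (p ^ k)) ^ j : G) = (y : G) * g' ^ (p ^ k) * (y : G)⁻¹ := by
        have := congrArg (fun z : C => (z : G)) hj
        simpa using this
      rw [conj_pow, ← h1]
      exact Subgroup.zpow_mem _ (Subgroup.pow_mem _ (Subgroup.mem_zpowers h) _) _
    · obtain ⟨j, hj⟩ := Subgroup.mem_zpowers_iff.1 hmem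
      have h1 : (y : G) * (h ^ m) = h ^ m * (y : G) := (hmemC _).1 y.2
      have h2 : Commute (y : G) ((h ^ m) ^ j) := (show Commute (y : G) (h ^ m) from h1).zpow_right j
      rw [conj_pow, ← hj, h2.eq, mul_assoc, mul_inv_cancel, mul_one]
      exact Subgroup.zpow_mem _ (Subgroup.pow_mem _ (Subgroup.mem_zpowers h) _) _

theorem FH : FH_stmt := by
  intro W _ _ E A hE hAE hcyc hcop w
  obtain ⟨a0, ha0⟩ := (Subgroup.isCyclic_iff_exists_zpowers_eq_top A).1 hcyc
  have ha0A : a0 ∈ A := by rw [← ha0]; exact Subgroup.mem_zpowers a0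
  have ha0E : a0 ∈ E := hAE ha0A
  have hwE : w * a0 * w⁻¹ ∈ E := hE.conj_mem a0 ha0E w
  have hcardA : Nat.card A = orderOf a0 := by rw [← ha0, Nat.card_zpowers]
  have hrel : Nat.card E / Nat.card A = A.relIndex E := by
    have h1 : Nat.card A * A.relIndex E = Nat.card E := by
      have h2 := (A.subgroupOf E).card_mul_index
      rw [Nat.card_congr (Subgroup.subgroupOfEquivOfLe hAE).toEquiv] at h2
      exact h2
    rw [← h1]
    exact Nat.mul_div_cancel_left _ Nat.card_pos
  have ho1 : orderOf (⟨a0, ha0E⟩ : E) = Nat.card A := by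
    rw [← Subgroup.orderOf_coe, hcardA]
  have ho2 : orderOf (⟨w * a0 * w⁻¹, hwE⟩ : E) = Nat.card A := by
    rw [← Subgroup.orderOf_coe, hcardA]
    exact MulEquiv.orderOf_eq (MulAut.conj w) a0
  obtain ⟨x, hx⟩ := FH_main (Nat.card A) E ⟨w * a0 * w⁻¹, hwE⟩ ⟨a0, ha0E⟩ ho2 ho1 (by rw [hrel]; exact hcop)
  refine ⟨x, x.2, ?_⟩
  intro a ha
  obtain ⟨j, hj⟩ := Subgroup.mem_zpowers_iff.1 hx
  have h1 : (a0 ^ j : W) = (x : W) * (w * a0 * w⁻¹) * (x : W)⁻¹ := by
    have := congrArg (fun z : E => (z : W)) hj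
    simpa using this
  rw [← ha0] at ha
  obtain ⟨i, hi⟩ := Subgroup.mem_zpowers_iff.1 ha
  have h2 : (x : W) * w * a * ((x : W) * w)⁻¹ = ((x : W) * (w * a0 * w⁻¹) * (x : W)⁻¹) ^ i := by
    rw [← hi]
    have h3 : (x : W) * (w * a0 * w⁻¹) * (x : W)⁻¹ = ((x : W) * w) * a0 * ((x : W) * w)⁻¹ := by group
    rw [h3, conj_zpow]
  rw [h2, ← h1]
  exact Subgroup.zpow_mem _ (Subgroup.zpow_mem _ ha0A _) _

end Pool.Agent.helper75.AU

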