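import Pool.Agent.helper53.AU.SpecG2

namespace Pool.Agent.helper53.AU

open scoped Classical

theorem LB_orb {X Ω : Type} [Group X] [MulAction X Ω] [Finite X] (Y : Subgroup X) (ω : Ω) :
    Nat.card Y = (MulAction.orbit Y ω).ncard * Nat.card (MulAction.stabilizer Y ω) := by
  rw [← MulAction.index_stabilizer, mul_comm, Subgroup.card_mul_index]

theorem LB_stab {X Ω : Type} [Group X] [MulAction X Ω] (Y : Subgroup X) (ω : Ω) :
    Nat.card (MulAction.stabilizer Y ω) ∣ Nat.card (MulAction.stabilizer X ω) := by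
  refine Subgroup.card_dvd_of_injective
    (⟨⟨fun y => ⟨((y : Y) : X), ?_⟩, ?_⟩, ?_⟩ :
      MulAction.stabilizer Y ω →* MulAction.stabilizer X ω) ?_
  · have h := y.2
    rw [MulAction.mem_stabilizer_iff] at h ⊢
    exact h
  · rfl
  · intro x y
    rfl
  · intro x y h
    apply Subtype.ext
    apply Subtype.ext
    exact congrArg (fun z : MulAction.stabilizer X ω => (z : X)) h

theorem LB_comm {X : Type} [Group X] (A : Subgroup X) (h : IsCyclic A) :
    ∀ x ∈ A, ∀ y ∈ A, x * y = y * x := by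
  intro x hx y hy
  obtain ⟨c, hc⟩ := h.exists_generator
  obtain ⟨i, hi⟩ := Subgroup.mem_zpowers_iff.mp (hc ⟨x, hx⟩)
  obtain ⟨j, hj⟩ := Subgroup.mem_zpowers_iff.mp (hc ⟨y, hy⟩)
  have h1 : (⟨x, hx⟩ : A) * ⟨y, hy⟩ = ⟨y, hy⟩ * ⟨x, hx⟩ := by
    rw [← hi, ← hj, ← zpow_add, ← zpow_add, add_comm]
  exact congrArg Subtype.val h1

theorem LB (hNH : NH_stmt) : LB_stmt := by
  intro X Ω _ _ _ _ _ A r hcyc hreg hcop hinv h5 h6 h7 g a ha
  rcases isEmpty_or_nonempty Ω with hΩ | ⟨⟨ω₀⟩⟩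
  · have h1 : g * a * g⁻¹ = a := eq_of_smul_eq_smul (α := Ω) (fun w => (hΩ.false w).elim)
    rw [h1]
    exact ha
  have hab := LB_comm A hcyc
  let Y : Subgroup X :=
    { carrier := {y | ∀ ω, r (y • ω) ω}
      mul_mem' := by
        intro y z hy hz ω
        have h1 := hy (z • ω)
        have h2 := hz ω
        rw [mul_smul]
        exact r.trans' h1 h2
      one_mem' := by
        intro ω
        rw [one_smul]
      inv_mem' := by
        intro y hy ω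
        have h1 := hy (y⁻¹ • ω)
        rw [smul_inv_smul] at h1
        exact r.symm' h1 }
  have hYn : ∀ (g y : X), y ∈ Y → g * y * g⁻¹ ∈ Y := by
    intro g y hy ω
    have h1 := hinv g _ _ (hy (g⁻¹ • ω))
    rw [smul_inv_smul] at h1
    rw [mul_smul, mul_smul]
    exact h1
  have hBt : ∀ ω ω' : Ω, r ω' ω → ∃ b ∈ A ⊓ Y, b • ω = ω' := by
    intro ω ω' h
    obtain ⟨⟨d, hd⟩, hdω, _⟩ := hreg ω ω'
    have hdω' : d • ω = ω' := hdω
    refine ⟨d, ⟨hd, ?_⟩, hdω'⟩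
    intro γ
    obtain ⟨⟨e, he⟩, heγ, _⟩ := hreg ω γ
    have heγ' : e • ω = γ := heγ
    have h1 := hinv e _ _ h
    rw [← hdω', ← mul_smul, hab e he d hd, mul_smul, heγ'] at h1
    exact h1
  have hsemi : ∀ a ∈ A, ∀ ω : Ω, a • ω = ω → a = 1 := by
    intro a ha ω h
    obtain ⟨d, _, hu⟩ := hreg ω ω
    have h1 := hu ⟨a, ha⟩ h
    have h2 := hu 1 (by simp)
    exact congrArg Subtype.val (h1.trans h2.symm)
  have horb : (MulAction.orbit Y ω₀).ncard = Nat.card (A ⊓ Y : Subgroup X) := by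
    have h1 : MulAction.orbit Y ω₀ =
        (fun b : (A ⊓ Y : Subgroup X) => (b : X) • ω₀) '' Set.univ := by
      ext ω
      constructor
      · rintro ⟨y, rfl⟩
        obtain ⟨b, hb, hbω⟩ := hBt ω₀ ((y : X) • ω₀) (y.2 ω₀)
        exact ⟨⟨b, hb⟩, trivial, hbω⟩
      · rintro ⟨b, _, rfl⟩
        exact ⟨⟨(b : X), b.2.2⟩, rfl⟩
    rw [h1, Set.ncard_image_of_injective _, Set.ncard_univ]
    intro b b' h
    have h2 : (b : X) • ω₀ = (b' : X) • ω₀ := h
    have h3 : ((b' : X)⁻¹ * (b : X)) • ω₀ = ω₀ := by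
      rw [mul_smul, h2, inv_smul_smul]
    have h4 := hsemi _ (A.mul_mem (A.inv_mem b'.2.1) b.2.1) ω₀ h3
    apply Subtype.ext
    exact (inv_mul_eq_one.mp h4).symm
  have hcard := LB_orb Y ω₀
  rw [horb] at hcard
  have hpos : 0 < Nat.card (A ⊓ Y : Subgroup X) := Nat.card_pos
  have hdiv : Nat.card Y / Nat.card (A ⊓ Y : Subgroup X) =
      Nat.card (MulAction.stabilizer Y ω₀) := by
    rw [hcard, Nat.mul_div_cancel_left _ hpos]
  have hcopr : Nat.Coprime (Nat.card (A ⊓ Y : Subgroup X))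
      (Nat.card Y / Nat.card (A ⊓ Y : Subgroup X)) := by
    rw [hdiv]
    have h1 := hcop ω₀
    exact Nat.Coprime.coprime_dvd_left (Subgroup.card_dvd_of_le inf_le_left)
      (Nat.Coprime.coprime_dvd_right (LB_stab Y ω₀) h1.symm)
  have hB := hNH X (A ⊓ Y) Y inf_le_right
    (fun h hh x hx => ⟨h6 h hh x hx.1 hx.2, hYn h x hx.2⟩) hcopr
  have hBn : ∀ g : X, ∀ b ∈ A ⊓ Y, g * b * g⁻¹ ∈ A ⊓ Y := by
    intro g b hb
    apply hB _ (hYn g b hb.2)
    rw [conj_pow]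
    have h1 : (⟨b, hb⟩ : (A ⊓ Y : Subgroup X)) ^ Nat.card (A ⊓ Y : Subgroup X) = 1 :=
      pow_card_eq_one'
    have h2 : b ^ Nat.card (A ⊓ Y : Subgroup X) = 1 := congrArg Subtype.val h1
    rw [h2]
    group
  obtain ⟨a', ha', h⟩ := h5 g a ha
  have hyY : a'⁻¹ * (g * a * g⁻¹) ∈ Y := by
    intro ω
    have h1 := hinv a'⁻¹ _ _ (h ω)
    rw [inv_smul_smul, ← mul_smul] at h1
    exact h1
  have hyA : a'⁻¹ * (g * a * g⁻¹) ∈ A := by
    apply h7 _ hyY
    intro b hb hbY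
    have hbB : b ∈ A ⊓ Y := ⟨hb, hbY⟩
    have h1 := (hBn g⁻¹ b hbB).1
    rw [inv_inv] at h1
    have h2 := hab _ ha _ h1
    have h3 := hab _ (A.inv_mem ha') _ hb
    have h4 : (g * a * g⁻¹) * b = b * (g * a * g⁻¹) := by
      have e1 : (g * a * g⁻¹) * b = g * (a * (g⁻¹ * b * g)) * g⁻¹ := by group
      have e2 : b * (g * a * g⁻¹) = g * ((g⁻¹ * b * g) * a) * g⁻¹ := by group
      rw [e1, e2, h2]
    rw [mul_assoc, h4, ← mul_assoc, h3, mul_assoc]
  have hfin : g * a * g⁻¹ = a' * (a'⁻¹ * (g * a * g⁻¹)) := by group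
  rw [hfin]
  exact A.mul_mem ha' hyA

end Pool.Agent.helper53.AU
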