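import Pool.Agent.helper53.AU.SpecG3
import Pool.Agent.helper18.AU.LB

namespace Pool.Agent.helper53.AU

open scoped Classical

theorem M1_mem {L : Type} [Group L] (ρ g : L) :
    g ∈ Subgroup.centralizer ({ρ} : Set L) ↔ g * ρ = ρ * g := by
  rw [Subgroup.mem_centralizer_iff]
  constructor
  · intro h
    exact (h ρ rfl).symm
  · intro h x hx
    have hx' : x = ρ := hx
    subst hx'
    exact h.symm

/-- the arithmetic of the orbit lengths -/
theorem M1_arith (s cO b a' h' W q T n : ℕ) (hb : 0 < b) (hW : W = 2 * (b * T)) (hT : T = 2 ^ n)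
    (h1 : h' * a' = (s * cO) * b) (h2 : h' ∣ W * q) (hs : Odd s) (hsW : s ∣ W)
    (hq : Nat.Coprime q W) : s ∣ a' := by
  obtain ⟨k, hk⟩ := h2
  have e1 : (s * cO) * b ∣ (a' * (2 * T) * q) * b := by
    have : (a' * (2 * T) * q) * b = ((s * cO) * b) * k := by
      rw [← h1]
      calc (a' * (2 * T) * q) * b = a' * ((2 * (b * T)) * q) := by ring
        _ = a' * (W * q) := by rw [hW]
        _ = a' * (h' * k) := by rw [hk]
        _ = h' * a' * k := by ring
    exact ⟨k, this⟩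
  have e2 : s * cO ∣ a' * (2 * T) * q := Nat.dvd_of_mul_dvd_mul_right hb e1
  have e3 : s ∣ a' * (2 * T) * q := (Dvd.intro _ rfl).trans e2
  have e4 : Nat.Coprime s q := Nat.Coprime.coprime_dvd_left hsW hq.symm
  have e5 : s ∣ a' * (2 * T) := e4.dvd_of_dvd_mul_right e3
  have e6 : Nat.Coprime s (2 * T) := by
    rw [hT]
    have : Nat.Coprime s 2 := Nat.coprime_two_right.mpr hs
    exact Nat.Coprime.mul_right this (Nat.Coprime.pow_right n this)
  exact e6.dvd_of_dvd_mul_right e5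

/-- product formula in a group with a normal subgroup -/
theorem M1_prod {M : Type} [Group M] [Finite M] (O' B' : Subgroup M) [O'.Normal] :
    Nat.card (B' ⊔ O' : Subgroup M) * Nat.card (O' ⊓ B' : Subgroup M) =
      Nat.card O' * Nat.card B' := by
  have h1 := Subgroup.relIndex_sup_right B' O'
  have h2 : Nat.card (O'.subgroupOf B') * O'.relIndex B' = Nat.card B' :=
    Subgroup.card_mul_index _
  have h3 : Nat.card (O'.subgroupOf (B' ⊔ O')) * O'.relIndex (B' ⊔ O') =
      Nat.card (B' ⊔ O' : Subgroup M) := Subgroup.card_mul_index _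
  have h4 : Nat.card (O'.subgroupOf (B' ⊔ O')) = Nat.card O' :=
    Nat.card_congr (Subgroup.subgroupOfEquivOfLe (le_sup_right : O' ≤ B' ⊔ O')).toEquiv
  have h5 : Nat.card (O'.subgroupOf B') = Nat.card (O' ⊓ B' : Subgroup M) := by
    rw [← Subgroup.subgroupOf_map_subtype]
    exact (Subgroup.card_map_of_injective B'.subtype_injective).symm
  rw [← h3, ← h5, h4, h1, mul_assoc, mul_comm (O'.relIndex B'), h2]

theorem M1 (hOC : OC_stmt) (hLO : LO_stmt) (hNH : NH_stmt) (hAB : AB_stmt) (hP1 : P1_stmt)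
    (hP6 : P6_stmt) (hPLL : PLL_stmt) : M1_stmt := by
  intro L Ω _ _ A t ρ hLL hd hρ hpr htρ O hO
  have finL := hLL.finL
  have finΩ := hLL.finΩ
  have ffl := hLL.faithful
  have trL := hLL.trans
  have hPL := hPLL L Ω A hLL
  obtain ⟨⟨τ, hτA, hτ⟩, _⟩ := hP1 L Ω A hPL
  obtain ⟨_, _, _, hreg, _⟩ := hP6 L Ω A hPL τ t hτA hτ hd
  obtain ⟨hodd, _, hcard, hcardodd, ⟨n, hTn⟩, hoddcyc, _, _, _, _⟩ := hAB L A hLL.cyc
  have hab := LB_comm A hLL.cyc
  have hρA : ρ ∈ A := ((hodd ρ).mp hρ).1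
  have hρodd : Odd (orderOf ρ) := ((hodd ρ).mp hρ).2
  have hoddA : ∀ a ∈ oddPart A, a ∈ A := fun a ha => ((hodd a).mp ha).1
  have hmem : ∀ g : L, g ∈ Subgroup.centralizer ({ρ} : Set L) ↔ g * ρ = ρ * g := M1_mem ρ
  have hAM : A ≤ Subgroup.centralizer ({ρ} : Set L) := fun a ha =>
    (hmem a).mpr (hab a ha ρ hρA)
  have htM : t ∈ Subgroup.centralizer ({ρ} : Set L) := (hmem t).mpr htρ
  have hDM : A ⊔ Subgroup.zpowers t ≤ Subgroup.centralizer ({ρ} : Set L) :=
    sup_le hAM ((Subgroup.zpowers_le).mpr htM)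
  have hsub : oddPart A ≤ Subgroup.centralizer ({ρ} : Set L) := fun a ha => hAM (hoddA a ha)
  have trM : MulAction.IsPretransitive (Subgroup.centralizer ({ρ} : Set L)) Ω := by
    constructor
    intro x y
    obtain ⟨⟨d, hd⟩, h, _⟩ := hreg x y
    exact ⟨⟨d, hDM hd⟩, h⟩
  obtain ⟨hnorm, hoddoc, hmax, _⟩ := hOC (Subgroup.centralizer ({ρ} : Set L))
  -- membership in `O`
  have hOmem : ∀ x : L, x ∈ O ↔ ∃ h : x ∈ Subgroup.centralizer ({ρ} : Set L),
      (⟨x, h⟩ : Subgroup.centralizer ({ρ} : Set L)) ∈ oc (Subgroup.centralizer ({ρ} : Set L)) := by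
    intro x
    rw [hO, Subgroup.mem_map]
    constructor
    · rintro ⟨y, hy, rfl⟩
      exact ⟨y.2, hy⟩
    · rintro ⟨h, hx⟩
      exact ⟨⟨x, h⟩, hx, rfl⟩
  -- (3)
  have h3 : ∀ g : L, g * ρ = ρ * g → ∀ x ∈ O, g * x * g⁻¹ ∈ O := by
    intro g hg x hx
    obtain ⟨hxM, hx'⟩ := (hOmem x).mp hx
    have hgM := (hmem g).mpr hg
    have h1 := hnorm.conj_mem _ hx' ⟨g, hgM⟩
    exact (hOmem _).mpr ⟨(⟨g, hgM⟩ * ⟨x, hxM⟩ * (⟨g, hgM⟩ : Subgroup.centralizer ({ρ} : Set L))⁻¹ :
      Subgroup.centralizer ({ρ} : Set L)).2, h1⟩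
  -- (4)
  have hcardO : Nat.card O = Nat.card (oc (Subgroup.centralizer ({ρ} : Set L))) := by
    rw [hO]
    exact Subgroup.card_map_of_injective
      (Subgroup.subtype_injective (Subgroup.centralizer ({ρ} : Set L)))
  have h4 : Odd (Nat.card O) := by
    rw [hcardO]
    exact hoddoc
  -- (6)
  have h6 : ∀ N : Subgroup L, (∀ x ∈ N, x * ρ = ρ * x) →
      (∀ g : L, g * ρ = ρ * g → ∀ x ∈ N, g * x * g⁻¹ ∈ N) → Odd (Nat.card N) → N ≤ O := by
    intro N hN1 hN2 hN3
    have hNM : N ≤ Subgroup.centralizer ({ρ} : Set L) := fun x hx => (hmem x).mpr (hN1 x hx)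
    have hle : N.subgroupOf (Subgroup.centralizer ({ρ} : Set L)) ≤
        oc (Subgroup.centralizer ({ρ} : Set L)) := by
      apply hmax
      · constructor
        intro x hx g
        rw [Subgroup.mem_subgroupOf] at hx ⊢
        exact hN2 (g : L) ((hmem _).mp g.2) _ hx
      · rw [Nat.card_congr (Subgroup.subgroupOfEquivOfLe hNM).toEquiv]
        exact hN3
    intro x hx
    exact (hOmem x).mpr ⟨hNM hx, hle (by rw [Subgroup.mem_subgroupOf]; exact hx)⟩
  -- (5)
  have h5 : ρ ∈ O := by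
    apply h6 (Subgroup.zpowers ρ) _ _ _ (Subgroup.mem_zpowers ρ)
    · intro x hx
      obtain ⟨i, hi⟩ := Subgroup.mem_zpowers_iff.mp hx
      rw [← hi]
      exact ((Commute.refl ρ).zpow_left i)
    · intro g hg x hx
      obtain ⟨i, hi⟩ := Subgroup.mem_zpowers_iff.mp hx
      have h1 : Commute g x := by
        rw [← hi]
        exact Commute.zpow_right hg i
      have h2 : g * x * g⁻¹ = x := by
        rw [h1.eq, mul_inv_cancel_right]
      rw [h2]
      exact hx
    · rw [Nat.card_zpowers]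
      exact hρodd
  -- the orbits
  have hstab : ∀ ω : Ω, Nat.Coprime (Nat.card (MulAction.stabilizer O ω)) (Nat.card Ω) := fun ω =>
    Nat.Coprime.coprime_dvd_left (LB_stab O ω) (hLL.copr ω)
  have hWcard : Nat.card Ω = 2 * (Nat.card (oddPart A) * Nat.card (twoPart A)) := by
    rw [hcard]
    exact hLL.cardA.symm
  have hsemi : ∀ a ∈ O ⊓ oddPart A, ∀ ω : Ω, a • ω = ω → a = 1 := fun a ha ω h =>
    hLL.semireg a (hoddA a ha.2) ω h
  have hinj : ∀ ω : Ω, Function.Injective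
      (fun b : (O ⊓ oddPart A : Subgroup L) => (b : L) • ω) := by
    intro ω b b' h
    have h2 : (b : L) • ω = (b' : L) • ω := h
    have h3 : ((b' : L)⁻¹ * (b : L)) • ω = ω := by
      rw [mul_smul, h2, inv_smul_smul]
    have h4 := hsemi _ ((O ⊓ oddPart A).mul_mem ((O ⊓ oddPart A).inv_mem b'.2) b.2) ω h3
    apply Subtype.ext
    exact (inv_mul_eq_one.mp h4).symm
  have himg : ∀ ω : Ω, ((fun b : (O ⊓ oddPart A : Subgroup L) => (b : L) • ω) '' Set.univ).ncard =
      Nat.card (O ⊓ oddPart A : Subgroup L) := by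
    intro ω
    rw [Set.ncard_image_of_injective _ (hinj ω), Set.ncard_univ]
  have hsubset : ∀ ω : Ω, ((fun b : (O ⊓ oddPart A : Subgroup L) => (b : L) • ω) '' Set.univ) ⊆
      MulAction.orbit O ω := by
    rintro ω _ ⟨b, _, rfl⟩
    exact ⟨⟨(b : L), b.2.1⟩, rfl⟩
  have horbeq : ∀ ω : Ω, MulAction.orbit (oc (Subgroup.centralizer ({ρ} : Set L))) ω =
      MulAction.orbit O ω := by
    intro ω
    ext w
    constructor
    · rintro ⟨y, rfl⟩
      exact ⟨⟨((y : Subgroup.centralizer ({ρ} : Set L)) : L),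
        (hOmem _).mpr ⟨(y : Subgroup.centralizer ({ρ} : Set L)).2, y.2⟩⟩, rfl⟩
    · rintro ⟨y, rfl⟩
      obtain ⟨h1, h2⟩ := (hOmem _).mp y.2
      exact ⟨⟨⟨(y : L), h1⟩, h2⟩, rfl⟩
  have hsW : ∀ ω : Ω, (MulAction.orbit O ω).ncard ∣ Nat.card Ω := by
    intro ω
    rw [← horbeq ω]
    exact (MulAction.IsBlock.orbit_of_normal
      (G := Subgroup.centralizer ({ρ} : Set L)) ω).ncard_dvd_card
        ⟨ω, MulAction.mem_orbit_self ω⟩
  have hprod := M1_prod (oc (Subgroup.centralizer ({ρ} : Set L)))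
    ((oddPart A).subgroupOf (Subgroup.centralizer ({ρ} : Set L)))
  have hB' : Nat.card ((oddPart A).subgroupOf (Subgroup.centralizer ({ρ} : Set L))) =
      Nat.card (oddPart A) := Nat.card_congr (Subgroup.subgroupOfEquivOfLe hsub).toEquiv
  have hA' : Nat.card (oc (Subgroup.centralizer ({ρ} : Set L)) ⊓
      (oddPart A).subgroupOf (Subgroup.centralizer ({ρ} : Set L)) :
        Subgroup (Subgroup.centralizer ({ρ} : Set L))) =
      Nat.card (O ⊓ oddPart A : Subgroup L) := by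
    have e : (oc (Subgroup.centralizer ({ρ} : Set L)) ⊓
      (oddPart A).subgroupOf (Subgroup.centralizer ({ρ} : Set L))).map
        (Subgroup.centralizer ({ρ} : Set L)).subtype = O ⊓ oddPart A := by
      ext x
      rw [Subgroup.mem_map]
      constructor
      · rintro ⟨y, hy, rfl⟩
        exact ⟨(hOmem _).mpr ⟨y.2, hy.1⟩, hy.2⟩
      · rintro ⟨hx1, hx2⟩
        obtain ⟨h1, h2⟩ := (hOmem _).mp hx1
        exact ⟨⟨x, h1⟩, ⟨h2, hx2⟩, rfl⟩
    rw [← e]
    exact (Subgroup.card_map_of_injective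
      (Subgroup.subtype_injective (Subgroup.centralizer ({ρ} : Set L)))).symm
  rw [hB', hA', ← hcardO] at hprod
  have hs : ∀ ω : Ω, (MulAction.orbit O ω).ncard =
      Nat.card (O ⊓ oddPart A : Subgroup L) := by
    intro ω
    have hOc := LB_orb O ω
    have hsodd : Odd (MulAction.orbit O ω).ncard := by
      rw [hOc] at h4
      exact (Nat.odd_mul.mp h4).1
    have hdvd : Nat.card ((oddPart A).subgroupOf (Subgroup.centralizer ({ρ} : Set L)) ⊔
        oc (Subgroup.centralizer ({ρ} : Set L)) :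
          Subgroup (Subgroup.centralizer ({ρ} : Set L))) ∣
        Nat.card Ω * Nat.card (MulAction.stabilizer L ω) := by
      have e1 := Subgroup.card_subgroup_dvd_card ((oddPart A).subgroupOf
        (Subgroup.centralizer ({ρ} : Set L)) ⊔ oc (Subgroup.centralizer ({ρ} : Set L)))
      have e2 := Subgroup.card_subgroup_dvd_card (Subgroup.centralizer ({ρ} : Set L))
      have e3 : Nat.card L = Nat.card Ω * Nat.card (MulAction.stabilizer L ω) := by
        rw [← MulAction.index_stabilizer_of_transitive L ω, mul_comm, Subgroup.card_mul_index]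
      rw [← e3]
      exact e1.trans e2
    rw [hOc] at hprod
    have hdiv := M1_arith _ _ _ _ _ _ _ _ n Nat.card_pos hWcard hTn hprod hdvd hsodd (hsW ω)
      (hLL.copr ω)
    have hle : Nat.card (O ⊓ oddPart A : Subgroup L) ≤ (MulAction.orbit O ω).ncard := by
      rw [← himg ω]
      exact Set.ncard_le_ncard (hsubset ω) (Set.toFinite _)
    exact le_antisymm (Nat.le_of_dvd Nat.card_pos hdiv) hle
  have horb : ∀ ω : Ω, ∀ x ∈ O, ∃ a ∈ O ⊓ oddPart A, x • ω = a • ω := by
    intro ω x hx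
    have e1 : ((fun b : (O ⊓ oddPart A : Subgroup L) => (b : L) • ω) '' Set.univ) =
        MulAction.orbit O ω := by
      apply Set.eq_of_subset_of_ncard_le (hsubset ω) _ (Set.toFinite _)
      rw [himg ω, hs ω]
    have e2 : x • ω ∈ MulAction.orbit O ω := ⟨⟨x, hx⟩, rfl⟩
    rw [← e1] at e2
    obtain ⟨b, _, hb⟩ := e2
    exact ⟨b, b.2, hb.symm⟩
  have hcyc' : IsCyclic (O ⊓ oddPart A : Subgroup L) := by
    have := hoddcyc
    exact Subgroup.isCyclic_of_le (inf_le_right : O ⊓ oddPart A ≤ oddPart A)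
  have hA'W : ∀ k : ℕ, Nat.Coprime k (Nat.card Ω) →
      Nat.Coprime k (Nat.card (O ⊓ oddPart A : Subgroup L)) := by
    intro k hk
    apply Nat.Coprime.coprime_dvd_right _ hk
    have e1 : Nat.card (O ⊓ oddPart A : Subgroup L) ∣ Nat.card (oddPart A) :=
      Subgroup.card_dvd_of_le inf_le_right
    rw [hWcard]
    exact (e1.trans (Dvd.intro _ rfl)).trans (Dvd.intro_left _ rfl)
  have hcop' : ∀ ω : Ω, Nat.Coprime (Nat.card {x : L // x ∈ O ∧ x • ω = ω})
      (Nat.card (O ⊓ oddPart A : Subgroup L)) := by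
    intro ω
    have e1 : Nat.card {x : L // x ∈ O ∧ x • ω = ω} =
        Nat.card (O ⊓ MulAction.stabilizer L ω : Subgroup L) := by
      apply Nat.card_congr
      exact Equiv.subtypeEquivRight (fun x => Iff.rfl)
    rw [e1]
    exact hA'W _ (Nat.Coprime.coprime_dvd_left (Subgroup.card_dvd_of_le inf_le_right)
      (hLL.copr ω))
  obtain ⟨hn1, hn2⟩ := hLO L Ω O (O ⊓ oddPart A) inf_le_left hcyc' h4 horb hsemi hcop'
  have hne : Nonempty Ω := hPL.nonempty
  obtain ⟨ω₀⟩ := hne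
  have hcardO2 := LB_orb O ω₀
  rw [hs ω₀] at hcardO2
  have hdiv : Nat.card O / Nat.card (O ⊓ oddPart A : Subgroup L) =
      Nat.card (MulAction.stabilizer O ω₀) := by
    rw [hcardO2, Nat.mul_div_cancel_left _ Nat.card_pos]
  have hNH' := hNH L (O ⊓ oddPart A) O inf_le_left hn1 (by
    rw [hdiv]
    exact (hA'W _ (hstab ω₀)).symm)
  refine ⟨?_, ?_, h3, h4, h5, h6⟩
  · intro g hg a ha
    apply hNH' _ (h3 g hg a ha.1)
    rw [conj_pow]
    have h1 : (⟨a, ha⟩ : (O ⊓ oddPart A : Subgroup L)) ^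
        Nat.card (O ⊓ oddPart A : Subgroup L) = 1 := pow_card_eq_one'
    have h2 : a ^ Nat.card (O ⊓ oddPart A : Subgroup L) = 1 := congrArg Subtype.val h1
    rw [h2]
    group
  · intro x hx h
    exact (hn2 x hx h).2

end Pool.Agent.helper53.AU
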