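import Pool.Agent.helper75.AU.SpecR

namespace Pool.Agent.helper75.AU

open scoped Classical
open Pool.Agent.helper53.AU MulAction

theorem MK : MK_stmt := by
  intro L O Om _ _ _ _ _ _ pi sw hpi hsw hfib hsurj htt H
  by_cases hex : ∃ x₀ y₀ : O, pi x₀ ≠ pi y₀
  · obtain ⟨x₀, y₀, h₀⟩ := hex
    have hswL : ∀ (v : L) (x : O), v • sw x = sw (v • x) := by
      intro v x
      have h1 : pi (v • x) = pi (v • sw x) := by
        rw [hpi, hpi, (hsw x).2.2]
      rcases hfib _ _ h1 with h2 | h2
      · exact absurd (smul_left_cancel v h2) (hsw x).1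
      · exact h2
    let P : O → O → Prop := fun x y => ∃ v : L, (v • x₀ = x ∧ v • y₀ = y) ∨
      (v • x₀ = sw x ∧ v • y₀ = sw y)
    have hP : ∀ x y, P x y ↔ ∃ v : L, (v • x₀ = x ∧ v • y₀ = y) ∨
      (v • x₀ = sw x ∧ v • y₀ = sw y) := fun _ _ => Iff.rfl
    -- existence
    have hor : ∀ x y, pi x ≠ pi y → P x y ∨ P (sw x) y := by
      intro x y hxy
      obtain ⟨v, hv1, hv2⟩ := htt (pi x₀) (pi y₀) (pi x) (pi y) h₀ hxy
      rw [← hpi] at hv1 hv2
      rcases hfib _ _ hv1.symm with h1 | h1 <;> rcases hfib _ _ hv2.symm with h2 | h2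
      · exact Or.inl ⟨v, Or.inl ⟨h1, h2⟩⟩
      · refine Or.inr ⟨v, Or.inr ⟨?_, h2⟩⟩
        rw [(hsw x).2.1]
        exact h1
      · exact Or.inr ⟨v, Or.inl ⟨h1, h2⟩⟩
      · exact Or.inl ⟨v, Or.inr ⟨h1, h2⟩⟩
    -- key: no element fixes one point and swaps the other one
    have key : ∀ (w : L) (x y : O), pi x ≠ pi y → w • x = x → w • y = sw y → False := by
      intro w x y hxy h1 h2
      have h3 : pi (w • y) = pi y := by rw [h2]; exact (hsw y).2.2
      have h4 := H w x y hxy h1 h3
      rw [h2] at h4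
      exact (hsw y).1 h4
    have hnot : ∀ x y, pi x ≠ pi y → P x y → P (sw x) y → False := by
      intro x y hxy h1 h2
      obtain ⟨v, hv⟩ := h1
      obtain ⟨v', hv'⟩ := h2
      rw [(hsw x).2.1] at hv'
      have hsx : pi (sw x) = pi x := (hsw x).2.2
      have hsy : pi (sw y) = pi y := (hsw y).2.2
      have hx₀ : ∀ z : O, v • x₀ = z → (v' * v⁻¹) • z = v' • x₀ := by
        intro z hz
        rw [← hz, mul_smul, inv_smul_smul]
      have hy₀ : ∀ z : O, v • y₀ = z → (v' * v⁻¹) • z = v' • y₀ := by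
        intro z hz
        rw [← hz, mul_smul, inv_smul_smul]
      rcases hv with ⟨h1, h2⟩ | ⟨h1, h2⟩ <;> rcases hv' with ⟨h3, h4⟩ | ⟨h3, h4⟩
      · have e1 := hx₀ _ h1
        have e2 := hy₀ _ h2
        rw [h3] at e1
        rw [h4] at e2
        exact key _ y x (fun h => hxy h.symm) e2 e1
      · have e1 := hx₀ _ h1
        have e2 := hy₀ _ h2
        rw [h3] at e1
        rw [h4] at e2
        exact key _ x y hxy e1 e2
      · have e1 := hx₀ _ h1
        have e2 := hy₀ _ h2
        rw [h3] at e1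
        rw [h4] at e2
        refine key _ (sw x) (sw y) ?_ e1 ?_
        · rw [hsx, hsy]
          exact hxy
        · rw [(hsw y).2.1]
          exact e2
      · have e1 := hx₀ _ h1
        have e2 := hy₀ _ h2
        rw [h3] at e1
        rw [h4] at e2
        refine key _ (sw y) (sw x) ?_ e2 ?_
        · rw [hsx, hsy]
          exact fun h => hxy h.symm
        · rw [(hsw x).2.1]
          exact e1
    have hPsw : ∀ x y, P x (sw y) ↔ P (sw x) y := by
      intro x y
      rw [hP, hP]
      constructor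
      · rintro ⟨v, h | h⟩
        · refine ⟨v, Or.inr ⟨?_, h.2⟩⟩
          rw [(hsw x).2.1]
          exact h.1
        · refine ⟨v, Or.inl ⟨h.1, ?_⟩⟩
          rw [h.2, (hsw y).2.1]
      · rintro ⟨v, h | h⟩
        · refine ⟨v, Or.inr ⟨h.1, ?_⟩⟩
          rw [(hsw y).2.1]
          exact h.2
        · refine ⟨v, Or.inl ⟨?_, h.2⟩⟩
          rw [h.1, (hsw x).2.1]
    have hPL : ∀ (v : L) (x y : O), P (v • x) (v • y) ↔ P x y := by
      have h1 : ∀ (v : L) (x y : O), P x y → P (v • x) (v • y) := by
        intro v x y h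
        obtain ⟨w, h | h⟩ := h
        · exact ⟨v * w, Or.inl ⟨by rw [mul_smul, h.1], by rw [mul_smul, h.2]⟩⟩
        · exact ⟨v * w, Or.inr ⟨by rw [mul_smul, h.1, hswL], by rw [mul_smul, h.2, hswL]⟩⟩
      intro v x y
      constructor
      · intro h
        have h2 := h1 v⁻¹ _ _ h
        rw [inv_smul_smul, inv_smul_smul] at h2
        exact h2
      · exact h1 v x y
    have hodd : ∀ x y, pi x ≠ pi y →
        ((if P (sw x) y then (1 : ℤ) else -1) = - (if P x y then (1 : ℤ) else -1)) := by
      intro x y hxy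
      by_cases h1 : P x y
      · have h2 : ¬ P (sw x) y := fun h => hnot x y hxy h1 h
        rw [if_pos h1, if_neg h2]
      · have h2 : P (sw x) y := (hor x y hxy).resolve_left h1
        rw [if_neg h1, if_pos h2]
        norm_num
    refine ⟨fun x y => if pi x = pi y then 0 else if P x y then 1 else -1, ?_, ?_, ?_, ?_⟩
    · intro v x y
      have e1 : (pi (v • x) = pi (v • y)) ↔ (pi x = pi y) := by
        rw [hpi, hpi]
        exact smul_left_cancel_iff v
      simp only [e1, hPL]
    · intro x y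
      have hsx : pi (sw x) = pi x := (hsw x).2.2
      have hsy : pi (sw y) = pi y := (hsw y).2.2
      constructor
      · by_cases hxy : pi x = pi y
        · simp only [hsx, hxy, if_true, neg_zero]
        · simp only [hsx, hxy, if_false]
          exact hodd x y hxy
      · by_cases hxy : pi x = pi y
        · simp only [hsy, hxy, if_true, neg_zero]
        · simp only [hsy, hxy, if_false, hPsw]
          exact hodd x y hxy
    · intro x y hxy
      simp only [hxy, if_true]
    · intro x y hxy
      simp only [hxy, if_false]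
      by_cases h1 : P x y
      · left
        rw [if_pos h1]
      · right
        rw [if_neg h1]
  · refine ⟨fun _ _ => 0, fun _ _ _ => rfl, fun _ _ => ⟨rfl, rfl⟩, fun _ _ _ => rfl, ?_⟩
    intro x y hxy
    exact absurd ⟨x, y, hxy⟩ hex

end Pool.Agent.helper75.AU
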