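import Pool.Agent.helper87.AU.SpecQ1

namespace Pool.Agent.helper53.AU

open scoped Classical IntermediateField
open Polynomial (aeval)

theorem QK1_ess (k F : Type) [Field k] [Field F] [Algebra k F] (hF : IsFF k F) :
    Algebra.EssFiniteType k F := by
  obtain ⟨x, _, hfin⟩ := hF
  have h1 : Algebra.EssFiniteType k k⟮x⟯ := by
    rw [IntermediateField.essFiniteType_iff]
    exact ⟨{x}, by simp⟩
  have h2 : Algebra.EssFiniteType k⟮x⟯ F := inferInstance
  exact Algebra.EssFiniteType.comp k k⟮x⟯ F

theorem QK1 : QK1_stmt := by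
  intro k F _ _ _ _ hF
  by_contra hno
  have hess := QK1_ess k F hF
  have hsub : Subsingleton (Ω[F⁄k]) := by
    refine subsingleton_of_forall_eq 0 ?_
    intro w
    rw [← Module.forall_dual_apply_eq_zero_iff F w]
    intro φ
    have h1 : φ.compDer (KaehlerDifferential.D k F) = 0 := by
      by_contra h2
      exact hno ⟨_, h2⟩
    have h2 : φ = 0 := by
      apply (Derivation.liftKaehlerDifferential_unique φ 0)
      rw [h1]
      ext x
      rfl
    rw [h2]; rfl
  have hunr : Algebra.FormallyUnramified k F := ⟨hsub⟩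
  have hsep : Algebra.IsSeparable k F := Algebra.FormallyUnramified.isSeparable k F
  obtain ⟨x, hx, _⟩ := hF
  exact hx (Algebra.IsAlgebraic.isAlgebraic x)

end Pool.Agent.helper53.AU

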