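import Pool.Agent.helper75.AU.SpecW

namespace Pool.Agent.helper53.AU

open scoped Classical IntermediateField
open Polynomial (aeval)

theorem QWF_ne (n : ℕ) (hn : ¬ 3 ∣ n) : ((n : ℕ) : AlgebraicClosure (ZMod 3)) ≠ 0 := by
  intro h
  exact hn ((CharP.cast_eq_zero_iff (AlgebraicClosure (ZMod 3)) 3 n).1 h)

theorem QWF_le (g : ℕ) (F : Type) [Field F] [Algebra (AlgebraicClosure (ZMod 3)) F]
    (h1 : IsFF (AlgebraicClosure (ZMod 3)) F ∧ IsGenus (AlgebraicClosure (ZMod 3)) F g)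
    (h2 : ((8 * g : ℕ) : ℕ∞) ≤ ENat.card (F ≃ₐ[AlgebraicClosure (ZMod 3)] F)) :
    ((8 * g : ℕ) : ℕ∞) ≤ mu 3 g := by
  refine h2.trans ?_
  unfold mu
  refine le_iSup_of_le F ?_
  refine le_iSup_of_le inferInstance ?_
  refine le_iSup_of_le inferInstance ?_
  exact le_iSup_of_le h1 le_rfl

theorem QWF (h1 : QW1_stmt) (h6 : QW6_stmt) (h7 : QW7_stmt) (h8 : QW8_stmt) (h9 : QW9_stmt)
    (hA : QWA_stmt) : QWF_stmt := by
  intro g hg
  have h2 : (2 : AlgebraicClosure (ZMod 3)) ≠ 0 := by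
    have := QWF_ne 2 (by norm_num)
    exact_mod_cast this
  obtain ⟨hp, hq⟩ := h9 (AlgebraicClosure (ZMod 3))
  by_cases hd : 3 ∣ g
  · have hn : ((2 * g + 2 : ℕ) : AlgebraicClosure (ZMod 3)) ≠ 0 := QWF_ne _ (by omega)
    obtain ⟨_, _, hsq, hdeg⟩ := hq (2 * g + 2) (by omega) hn
    have hdeg' : ((Polynomial.X + 1) ^ (2 * g + 2) - Polynomial.X ^ (2 * g + 2) :
        Polynomial (AlgebraicClosure (ZMod 3))).natDegree = 2 * g + 1 := by
      rw [hdeg]; omega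
    obtain ⟨F, i1, i2, x, y, hH⟩ := h1 (AlgebraicClosure (ZMod 3)) _ hsq (by rw [hdeg']; omega)
    have hG := h6 (AlgebraicClosure (ZMod 3)) F _ x y g h2 hsq hdeg' hH
    have hH' := hA (AlgebraicClosure (ZMod 3)) F g x y hH
    have hc := h8 (AlgebraicClosure (ZMod 3)) F g _ _ hg (by exact_mod_cast hn) hH'
    exact QWF_le g F hG hc
  · have hn : ((4 * g : ℕ) : AlgebraicClosure (ZMod 3)) ≠ 0 := QWF_ne _ (by omega)
    have hn' : ((2 * g : ℕ) : AlgebraicClosure (ZMod 3)) ≠ 0 := QWF_ne _ (by omega)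
    obtain ⟨hsq, hdeg⟩ := hp g (by omega) (by exact_mod_cast hn')
    obtain ⟨F, i1, i2, x, y, hH⟩ := h1 (AlgebraicClosure (ZMod 3)) _ hsq (by rw [hdeg]; omega)
    have hG := h6 (AlgebraicClosure (ZMod 3)) F _ x y g h2 hsq hdeg hH
    have hc := h7 (AlgebraicClosure (ZMod 3)) F g x y hg (by exact_mod_cast hn) hH
    exact QWF_le g F hG hc

end Pool.Agent.helper53.AU

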