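import Pool.Agent.helper75.AU.SpecR
import Pool.Agent.helper18.AU.LB

namespace Pool.Agent.helper75.AU

open scoped Classical
open Pool.Agent.helper53.AU MulAction

/-- elements of odd order of a group lie in a subgroup of index two -/
theorem RP_odd {G : Type} [Group G] (B N : Subgroup G)
    (hsq : ∀ s ∈ N, s * s ∈ B) (s : G) (hs : s ∈ N) (n : ℕ) (h : s ^ (3 ^ n) = 1) : s ∈ B := by
  have hodd : Odd (3 ^ n) := Odd.pow (by decide)
  obtain ⟨m, hm⟩ := hodd
  have h1 : (s * s) ^ m ∈ B := B.pow_mem (hsq s hs) m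
  have h2 : s * (s * s) ^ m = 1 := by
    rw [← h, hm, pow_succ', ← pow_two, ← pow_mul]
  have h3 : s = ((s * s) ^ m)⁻¹ := eq_inv_of_mul_eq_one_left h2
  rw [h3]
  exact B.inv_mem h1

theorem RP : RP_stmt := by
  intro k G X _ _ _ _ _ _ g R B N y hBN hcard hy huniq
  -- the index two facts
  have hcardB : 0 < Nat.card B := Nat.card_pos
  have hidx : B.relIndex N = 2 := by
    have h1 : Nat.card (B.subgroupOf N) * B.relIndex N = Nat.card N := Subgroup.card_mul_index _
    have h2 : Nat.card (B.subgroupOf N) = Nat.card B :=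
      Nat.card_congr (Subgroup.subgroupOfEquivOfLe hBN).toEquiv
    rw [h2, hcard, mul_comm 2] at h1
    exact Nat.eq_of_mul_eq_mul_left hcardB h1
  have hmul : ∀ a ∈ N, ∀ b ∈ N, (a * b ∈ B ↔ (a ∈ B ↔ b ∈ B)) := by
    intro a ha b hb
    have h1 := Subgroup.mul_mem_iff_of_index_two (H := B.subgroupOf N) hidx
      (a := ⟨a, ha⟩) (b := ⟨b, hb⟩)
    exact h1
  have hsq : ∀ s ∈ N, s * s ∈ B := fun s hs => (hmul s hs s hs).mpr Iff.rfl
  have htame : ∀ x : X, ∀ s ∈ N, s ∉ B → s • x = x → R.i x s = 0 := by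
    intro x s hs hsB hsx
    by_contra hne
    have h1 : s ≠ 1 := fun h => hsB (h ▸ B.one_mem)
    obtain ⟨n, hn⟩ := R.wild x s hsx h1 (Nat.one_le_iff_ne_zero.mpr hne)
    exact hsB (RP_odd B N hsq s hs n hn)
  -- the numbers
  let c : X → ℕ := fun x => (Finset.univ.filter (fun s : G => s ∈ N ∧ s ∉ B ∧ s • x = x)).card
  have hc : ∀ x, c x = (Finset.univ.filter (fun s : G => s ∈ N ∧ s ∉ B ∧ s • x = x)).card :=
    fun _ => rfl
  have hsum : ∀ x : X, ∑ s ∈ Finset.univ.filter (fun s : G => s ∈ N ∧ s ≠ 1 ∧ s • x = x),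
      ((R.i x s : ℤ) + 1) = ∑ s ∈ Finset.univ.filter (fun s : G => s ∈ B ∧ s ≠ 1 ∧ s • x = x),
      ((R.i x s : ℤ) + 1) + (c x : ℤ) := by
    intro x
    have h1 : (c x : ℤ) = ∑ s ∈ Finset.univ.filter (fun s : G => s ∈ N ∧ s ∉ B ∧ s • x = x),
        ((R.i x s : ℤ) + 1) := by
      rw [hc, Finset.card_eq_sum_ones]
      push_cast
      apply Finset.sum_congr rfl
      intro s hs
      rw [Finset.mem_filter] at hs
      rw [htame x s hs.2.1 hs.2.2.1 hs.2.2.2]
      norm_num
    rw [h1, ← Finset.sum_union]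
    · apply Finset.sum_congr _ (fun _ _ => rfl)
      ext s
      simp only [Finset.mem_filter, Finset.mem_univ, true_and, Finset.mem_union]
      constructor
      · rintro ⟨h1, h2, h3⟩
        by_cases hsB : s ∈ B
        · exact Or.inl ⟨hsB, h2, h3⟩
        · exact Or.inr ⟨h1, hsB, h3⟩
      · rintro (⟨h1, h2, h3⟩ | ⟨h1, h2, h3⟩)
        · exact ⟨hBN h1, h2, h3⟩
        · exact ⟨h1, fun h => h2 (h ▸ B.one_mem), h3⟩
    · rw [Finset.disjoint_left]
      intro s hs hs'
      rw [Finset.mem_filter] at hs hs'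
      exact hs'.2.2.1 hs.2.1
  -- counting in the orbit
  obtain ⟨t, htN, hty, htB⟩ := hy
  have hstab : ∀ x ∈ orbit N y, 2 * c x = Nat.card (stabilizer N x) := by
    rintro _ ⟨a, rfl⟩
    have hax : (fun m : N => m • y) a = (a : G) • y := rfl
    rw [hax]
    have ht : (a : G) * t * (a : G)⁻¹ ∈ N := N.mul_mem (N.mul_mem a.2 htN) (N.inv_mem a.2)
    have ht' : (a : G) * t * (a : G)⁻¹ ∉ B := by
      have e1 := hmul _ (N.mul_mem a.2 htN) _ (N.inv_mem a.2)
      have e2 := hmul _ a.2 _ htN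
      have e3 : (a : G)⁻¹ ∈ B ↔ (a : G) ∈ B := B.inv_mem_iff
      rw [e1, e2, e3]
      tauto
    have htx : ((a : G) * t * (a : G)⁻¹) • ((a : G) • y) = (a : G) • y := by
      rw [mul_smul, mul_smul, inv_smul_smul, hty]
    set τ := (a : G) * t * (a : G)⁻¹ with hτ
    set x := (a : G) • y with hx
    -- the elements of `B` fixing `x` correspond to the elements outside `B` fixing `x`
    have h1 : (Finset.univ.filter (fun s : G => s ∈ N ∧ s ∉ B ∧ s • x = x)).card =
        (Finset.univ.filter (fun s : G => s ∈ B ∧ s • x = x)).card := by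
      apply Finset.card_bij (fun s _ => τ * s)
      · intro s hs
        rw [Finset.mem_filter] at hs ⊢
        refine ⟨Finset.mem_univ _, ?_, ?_⟩
        · rw [hmul τ ht s hs.2.1]
          have := hs.2.2.1
          tauto
        · rw [mul_smul, hs.2.2.2, htx]
      · intro s _ s' _ h
        exact mul_left_cancel h
      · intro s hs
        rw [Finset.mem_filter] at hs
        refine ⟨τ⁻¹ * s, ?_, by group⟩
        rw [Finset.mem_filter]
        refine ⟨Finset.mem_univ _, N.mul_mem (N.inv_mem ht) (hBN hs.2.1), ?_, ?_⟩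
        · rw [hmul _ (N.inv_mem ht) s (hBN hs.2.1), B.inv_mem_iff]
          have := hs.2.1
          tauto
        · rw [mul_smul, hs.2.2, inv_smul_eq_iff, htx]
    have h2 : Nat.card (stabilizer N x) =
        (Finset.univ.filter (fun s : G => s ∈ N ∧ s • x = x)).card := by
      have e : Nat.card (stabilizer N x) = Nat.card {s : G // s ∈ N ∧ s • x = x} := by
        apply Nat.card_congr
        refine ⟨fun s => ⟨((s : N) : G), (s : N).2, s.2⟩, fun s => ⟨⟨s.1, s.2.1⟩, s.2.2⟩, ?_, ?_⟩
        · intro s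
          rfl
        · intro s
          rfl
      rw [e, Nat.card_eq_fintype_card, Fintype.card_subtype]
    have h3 : (Finset.univ.filter (fun s : G => s ∈ N ∧ s • x = x)).card =
        (Finset.univ.filter (fun s : G => s ∈ B ∧ s • x = x)).card +
        (Finset.univ.filter (fun s : G => s ∈ N ∧ s ∉ B ∧ s • x = x)).card := by
      rw [← Finset.card_union_of_disjoint]
      · congr 1
        ext s
        simp only [Finset.mem_filter, Finset.mem_univ, true_and, Finset.mem_union]
        constructor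
        · rintro ⟨h1, h3⟩
          by_cases hsB : s ∈ B
          · exact Or.inl ⟨hsB, h3⟩
          · exact Or.inr ⟨h1, hsB, h3⟩
        · rintro (⟨h1, h3⟩ | ⟨h1, h2, h3⟩)
          · exact ⟨hBN h1, h3⟩
          · exact ⟨h1, h3⟩
      · rw [Finset.disjoint_left]
        intro s hs hs'
        rw [Finset.mem_filter] at hs hs'
        exact hs'.2.2.1 hs.2.1
    rw [hc, h2, h3, h1]
    ring
  have hzero : ∀ x, x ∉ orbit N y → c x = 0 := by
    intro x hx
    rw [hc, Finset.card_eq_zero, Finset.filter_eq_empty_iff]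
    rintro s _ ⟨h1, h2, h3⟩
    obtain ⟨a, ha, hax⟩ := huniq x ⟨s, h1, h3, h2⟩
    exact hx ⟨⟨a, ha⟩, hax⟩
  have htotal : 2 * ∑ x : X, c x = Nat.card N := by
    have h1 : ∑ x : X, c x = ∑ x ∈ Finset.univ.filter (fun x => x ∈ orbit N y), c x := by
      rw [Finset.sum_filter]
      apply Finset.sum_congr rfl
      intro x _
      by_cases hx : x ∈ orbit N y
      · rw [if_pos hx]
      · rw [if_neg hx, hzero x hx]
    have h2 : ∀ x ∈ orbit N y, Nat.card (stabilizer N x) = Nat.card (stabilizer N y) := by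
      intro x hx
      have e1 := LB_orb N x
      have e2 := LB_orb N y
      rw [orbit_eq_iff.mpr hx, e2] at e1
      have hpos : 0 < (orbit N y).ncard := (Set.ncard_pos (Set.toFinite _)).mpr ⟨y, mem_orbit_self y⟩
      exact (Nat.eq_of_mul_eq_mul_left hpos e1).symm
    have h3 : ∀ x ∈ Finset.univ.filter (fun x => x ∈ orbit N y),
        2 * c x = Nat.card (stabilizer N y) := by
      intro x hx
      rw [Finset.mem_filter] at hx
      rw [hstab x hx.2, h2 x hx.2]
    rw [h1, Finset.mul_sum, Finset.sum_congr rfl h3, Finset.sum_const, smul_eq_mul, LB_orb N y]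
    congr 1
    rw [Set.ncard_eq_toFinset_card' (orbit N y)]
    congr 1
    ext x
    simp
  obtain ⟨γB, hB⟩ := R.RH B
  obtain ⟨γN, hN⟩ := R.RH N
  rw [Finset.sum_congr rfl (fun x _ => hsum x), Finset.sum_add_distrib] at hN
  have h5 : ((∑ x : X, c x : ℕ) : ℤ) = (Nat.card B : ℤ) := by
    have : ∑ x : X, c x = Nat.card B := by omega
    rw [this]
  have h6 : ∑ x : X, (c x : ℤ) = (Nat.card B : ℤ) := by
    rw [← h5]
    push_cast
    rfl
  rw [h6, hcard] at hN
  push_cast at hN
  have h7 : (Nat.card B : ℤ) * (2 * (γB : ℤ) - 2) =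
      (Nat.card B : ℤ) * (2 * (2 * (γN : ℤ) - 2) + 1) := by
    linarith
  have h8 : (Nat.card B : ℤ) ≠ 0 := by exact_mod_cast hcardB.ne'
  have h9 := mul_left_cancel₀ h8 h7
  omega

end Pool.Agent.helper75.AU
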